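import Pool.Agent.H126M.SemiMain

/-!
# Banach-Mazur rotation problem: a weak uniform micro-transitivity of the contractions

Let `E` be a separable Banach space, and `X` a set of unit vectors whose orbits under the isometries
are together dense in the unit sphere (one point, if the norm is almost transitive, or the whole
sphere, for an arbitrary norm). Suppose that unit vectors `y` close to points `x` of `X` are limits
of vectors `T x` with linear contractions `T` for which `φ (T u) ≥ γ`, where `u` and `φ` are a given
unit vector and a given normalized functional with `φ u ≥ κ`; here `κ < 1`, `γ > 0` and the meaning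
of close do not depend on `u` and `φ`. Then `E` is isomorphic to a Hilbert space. The case of
isometries `T`, without assumptions on orbits, is `WeakUniformMicro.lean`.

Proof outline (files `Pool/Agent/H126M/*`). Conjugation with isometries gives the hypothesis for all
unit vectors `x`.

1. `SemiSmooth.lean`: let `d(x,w) = |x+w| + |x-w| - 2|x|`, and let `(x,w)` nearly maximise
   `d(x,w)/|w|^2` among `|w| ≥ σ`. Let `y` be close to `x`. By the Hahn-Banach theorem and the
   hypothesis, `w` is at distance at most `κ' |w|`, `κ' < 1`, from a convex combination of `0` and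
   of vectors `S • T w` where `T y` is arbitrarily close to `x` and `S` is a fixed number. As
   `d(x,.)` is convex, `d(x, a • T w)` is large for one of these contractions `T` and a fixed number
   `a`, hence so is `d(y, a • w)`. Summing these second differences along a segment bounds the
   maximum independently of `σ`. So the norm is smooth of power type 2.
2. `SemiSlice.lean`: hence `E` is reflexive; by Baire category some slice of the ball is very small.
   If `T x` is close to `x₀` and `φ (T (z - x)) ≥ γ |z - x|`, `φ` norming `z - x`, then a small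
   slice at `x₀` gives a small slice at `x`; so slices at all points are small, by a chain of
   bounded length.
3. Small slices make the duality map from the dual sphere to the sphere continuous enough for the
   hypothesis to pass to the dual space, by adjoints. So the dual norm is smooth of power type 2
   by 1., and `E` is isomorphic to a Hilbert space (starting file `H755R2/MT/Hilbert`).
-/

set_option autoImplicit false
set_option linter.unusedVariables false

namespace Pool.Agent.Results.MP_cc72b1_an.ContractionMicro

open Pool.H305R3.Rot

theorem result :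
    ∀ (E : Type) [NormedAddCommGroup E] [NormedSpace ℝ E] [CompleteSpace E]
      [TopologicalSpace.SeparableSpace E] (X : Set E) (κ γ t : ℝ), κ < 1 → 0 < γ → 0 < t →
      (∀ y : E, ‖y‖ = 1 → ∀ η : ℝ, 0 < η → ∃ x ∈ X, ∃ S : E ≃ₗᵢ[ℝ] E, ‖S x - y‖ ≤ η) →
      (∀ x ∈ X, ‖x‖ = 1 ∧
        ∀ (y u : E) (φ : StrongDual ℝ E), ‖y‖ = 1 → ‖u‖ = 1 → ‖φ‖ = 1 → ‖y - x‖ ≤ t → κ ≤ φ u →
          ∀ η : ℝ, 0 < η → ∃ T : E →L[ℝ] E, ‖T‖ ≤ 1 ∧ ‖T x - y‖ ≤ η ∧ γ ≤ φ (T u)) →
      (∃ (H : Type) (instH : NormedAddCommGroup H) (instI : InnerProductSpace ℝ H)
        (instC : CompleteSpace H), Nonempty (E ≃L[ℝ] H)) ∧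
      ((∀ x y : E, ‖x‖ = 1 → ‖y‖ = 1 → ∀ η : ℝ, 0 < η → ∃ S : E ≃ₗᵢ[ℝ] E, ‖S x - y‖ ≤ η) →
        SOTAmenable E →
        ∃ (H : Type) (instH : NormedAddCommGroup H) (instI : InnerProductSpace ℝ H)
          (instC : CompleteSpace H), Nonempty (E ≃ₗᵢ[ℝ] H)) := by
  intro E _ _ _ _ X κ γ t hκ hγ ht hd h
  have h1 := Pool.H126M.main_semi hκ hγ (half_pos ht)
    (Pool.H126M.sult_of_set ht hd (fun x hx => (h x hx).2))
  exact ⟨h1, fun htr hA => Pool.H126M.isometric_semi htr hA h1⟩

end Pool.Agent.Results.MP_cc72b1_an.ContractionMicro
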