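import Pool.Agent.H509.Rot.Meag

/-!
# Banach-Mazur rotation problem: orbits of the compact perturbations of the identity

Let `E` be a separable infinite-dimensional real Banach space with transitive norm. If some unit
vector has an orbit under the group `N` of the surjective linear isometries `T` with `T - 1` compact
which is not meagre in the unit sphere, then `E` is a Hilbert space. So in a counterexample to the
Banach-Mazur problem all orbits of `N` are meagre. If a transitive group `G` has countable image in
the Calkin algebra, then countably many translates of an orbit of `N` cover the sphere, and the
theorem applies. In the starting file `NormSeparableGroups` the group `N` itself is transitive.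

Proof outline (files `Pool/Agent/H509/Rot/*`).

1. `Meag.lean`: `N` is normal in the group of all isometries, so no orbit is meagre. By Baire
   category every point is interior to the closure of its orbit, so the closures of the orbits are
   open and closed, and the orbits are dense, because the sphere is connected.
2. Let `η n` be a bounded weak* null sequence of functionals and `f x` the norming functional of `x`.
   If `limsup ‖f x + η n‖ ≤ r` for one `x`, the orbit of `x` is covered by the closed sets
   `{y | ‖f y + η n‖ ≤ r + ε for all n ≥ m}`. One of them has interior points, and the dense orbits
   carry the estimate to all points. So `limsup ‖f + η n‖` does not depend on the unit functional `f`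
   (Bishop-Phelps). By the Baire argument in `H821/Rot/Kadec.lean` the dual space is separable, and
   so is `N` for the operator norm.
3. Again by Baire category and successive approximations `N` acts transitively on small balls of the
   sphere, hence transitively. The starting files give the result for transitive `N`.
-/

set_option autoImplicit false
set_option linter.unusedVariables false

namespace Pool.Agent.Results.MP_cc72b1_an.NonmeagreCompactOrbit

open TopologicalSpace Metric

theorem result :
    ∀ (E : Type) [NormedAddCommGroup E] [NormedSpace ℝ E] [CompleteSpace E] [SeparableSpace E],
      ¬ FiniteDimensional ℝ E →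
      (∀ x y : E, ‖x‖ = 1 → ‖y‖ = 1 → ∃ T : E ≃ₗᵢ[ℝ] E, T x = y) →
      ∀ x₀ : E, ‖x₀‖ = 1 →
        ¬ IsMeagre {z : sphere (0 : E) 1 | ∃ T : E ≃ₗᵢ[ℝ] E,
          IsCompactOperator (fun x : E => T x - x) ∧ T x₀ = z} →
        ∃ (H : Type) (instH : NormedAddCommGroup H) (instI : InnerProductSpace ℝ H)
          (instC : CompleteSpace H), Nonempty (E ≃ₗᵢ[ℝ] H) := by
  intro E _ _ _ _ hE htr x₀ hx₀ hM
  exact Pool.Agent.H509.Rot.hilbert_of_nonmeagre hE htr hx₀ hM

end Pool.Agent.Results.MP_cc72b1_an.NonmeagreCompactOrbit
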