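import Pool.Agent.H509.Rot.Top

/-!
# Banach-Mazur rotation problem: amenability, as a topological group, modulo compact operators

Let `E` be a separable infinite-dimensional real Banach space and `G` a group of surjective linear
isometries, separable for the operator norm, which acts transitively on the unit sphere. If some
subgroup `H` of countable index is amenable, as a topological group with the distance modulo compact
operators, then `E` is a Hilbert space. In the starting file `NormSeparableGroups` the mean has to be
defined on all bounded functions (discrete amenability) and `H = G`.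

Proof outline (files `Pool/Agent/H509/Rot/*`).

1. `Almost.lean`: the distance to an orbit of `H` is a continuous function on the sphere with
   countably many values, so the orbits of `H` are dense in the (connected) sphere.
2. `Top.lean`: the limit `q` of the Hessians of the squared norm at a weakly null net of unit vectors
   (starting files `Y278/Rot`, `H821/Rot`) is a continuous equivalent quadratic form, and `q (T v)` is
   close to `q v`, uniformly for unit vectors `v`, if `T - 1` is close to a compact operator. So the
   functions `T ↦ q (T⁻¹ v)` are uniformly continuous and the mean gives an `H`-invariant continuous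
   form. By 1 it is a multiple of the square of the norm.
-/

set_option autoImplicit false
set_option linter.unusedVariables false

namespace Pool.Agent.Results.MP_cc72b1_an.TopologicallyAmenable

open TopologicalSpace Pool.Agent.H509.Rot

theorem result :
    ∀ (E : Type) [NormedAddCommGroup E] [NormedSpace ℝ E] [CompleteSpace E] [SeparableSpace E],
      ¬ FiniteDimensional ℝ E →
      ∀ G H : Subgroup (E ≃ₗᵢ[ℝ] E), (∀ x y : E, ‖x‖ = 1 → ‖y‖ = 1 → ∃ T ∈ G, T x = y) →
        IsSeparable {a : E →L[ℝ] E | ∃ T ∈ G, ∀ x, a x = T x} →
        H ≤ G → Countable (G ⧸ H.subgroupOf G) → TopAmenableModCompact H →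
        ∃ (F : Type) (instF : NormedAddCommGroup F) (instI : InnerProductSpace ℝ F)
          (instC : CompleteSpace F), Nonempty (E ≃ₗᵢ[ℝ] F) := by
  intro E _ _ _ _ hE G H htr hsep hHG hcount ham
  have hsep' : IsSeparable (Pool.Agent.H821.Rot.ops (G : Set (E ≃ₗᵢ[ℝ] E))) := by
    refine hsep.mono ?_
    rintro _ ⟨T, hT, rfl⟩
    exact ⟨T, hT, fun x => rfl⟩
  obtain ⟨f, hf⟩ := exists_surjective_nat (G ⧸ H.subgroupOf G)
  refine hilbert_of_top_amenable hE G H hsep' htr
    (fun n => ((Quotient.out (f n) : G) : E ≃ₗᵢ[ℝ] E)⁻¹) (fun T hT => ?_) ham
  obtain ⟨n, hn⟩ := hf (QuotientGroup.mk (⟨T, hT⟩⁻¹ : G))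
  refine ⟨n, ?_⟩
  have h1 : (QuotientGroup.mk (Quotient.out (f n)) : G ⧸ H.subgroupOf G) =
      QuotientGroup.mk (⟨T, hT⟩⁻¹ : G) := by
    rw [← hn]
    exact QuotientGroup.out_eq' (f n)
  rw [QuotientGroup.eq] at h1
  have h2 : ((Quotient.out (f n) : G) : E ≃ₗᵢ[ℝ] E)⁻¹ * T⁻¹ ∈ H := h1
  have h3 := H.inv_mem h2
  rw [mul_inv_rev, inv_inv] at h3
  exact h3

end Pool.Agent.Results.MP_cc72b1_an.TopologicallyAmenable
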