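import Pool.Agent.H126M.Point

/-!
# Banach-Mazur rotation problem: weakly uniformly micro-transitive norms are Hilbertian

Let `x` be a unit vector of a separable Banach space `E` with almost transitive norm. If the norm is
transitive, then by Baire category, for each finite set of vectors `u`, the unit vectors `y` close
to `x` are limits of vectors `T x` with isometries `T` which almost fix these `u`; how close `y` has
to be depends on `u`. We show that `E` is isomorphic to a Hilbert space if this holds uniformly in
`u` in a weak sense: whenever `u` and `φ` are a unit vector and a normalized functional with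
`φ u ≥ κ`, `κ < 1` fixed, one can choose `T` with `φ (T u) ≥ γ`, `γ > 0` fixed.

Proof outline (files `Pool/Agent/H126M/*`, which adapt the starting files `H755R2/MT/*`).

1. `Smooth.lean`: let `d(x,w) = |x+w| + |x-w| - 2|x|`, and let `(x,w)` nearly maximise
   `d(x,w)/|w|^2` among `|w| ≥ σ`. Let `y` be close to `x`. By the Hahn-Banach theorem and the
   hypothesis, `w` is at distance at most `κ' |w|`, `κ' < 1`, from a convex combination of `0` and
   of vectors `S • T w`, where `T y` is arbitrarily close to `x` and `S` is a fixed number. As
   `d(x,.)` is convex, `d(x, a • T w)` is large for one of these `T` and a fixed number `a`, hence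
   so is `d(y, a • w)`. Summing these second differences along a segment bounds the maximum
   independently of `σ`. So the norm is smooth of power type 2.
2. `Slice.lean`: the norm is almost transitive and `E` is reflexive; by Baire category and almost
   transitivity all slices of the ball given by norming functionals are uniformly small.
3. `Convex.lean`: suppose that `f` norms `x` and almost norms `x + v`. One constructs a long path
   with increments close to `T v`, `T x` being close to the current point, on which `f` is almost
   norming; if `φ` norms `v` then by the hypothesis `φ` grows linearly along the path, and the end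
   point contradicts 2. So norming functionals expose quadratically and the dual norm is also
   smooth of power type 2.
4. `Main.lean`: averaging the second differences of the squared norm with an invariant mean gives an
   equivalent inner product (starting file `H755R2/MT/Hilbert`). In the amenable case one averages
   it over the isometry group.
-/

set_option autoImplicit false
set_option linter.unusedVariables false

namespace Pool.Agent.Results.MP_cc72b1_an.WeakUniformMicro

open Pool.H305R3.Rot

theorem result :
    ∀ (E : Type) [NormedAddCommGroup E] [NormedSpace ℝ E] [CompleteSpace E]
      [TopologicalSpace.SeparableSpace E] (x : E) (κ γ t : ℝ), ‖x‖ = 1 → κ < 1 → 0 < γ → 0 < t →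
      (∀ (y u : E) (φ : StrongDual ℝ E), ‖y‖ = 1 → ‖u‖ = 1 → ‖φ‖ = 1 → ‖y - x‖ ≤ t → κ ≤ φ u →
        ∀ η : ℝ, 0 < η → ∃ T : E ≃ₗᵢ[ℝ] E, ‖T x - y‖ ≤ η ∧ γ ≤ φ (T u)) →
      (∃ (H : Type) (instH : NormedAddCommGroup H) (instI : InnerProductSpace ℝ H)
        (instC : CompleteSpace H), Nonempty (E ≃L[ℝ] H)) ∧
      (SOTAmenable E →
        ∃ (H : Type) (instH : NormedAddCommGroup H) (instI : InnerProductSpace ℝ H)
          (instC : CompleteSpace H), Nonempty (E ≃ₗᵢ[ℝ] H)) := by
  intro E _ _ _ _ x κ γ t hx hκ hγ ht h
  exact Pool.H126M.main_both hκ hγ (half_pos ht) (Pool.H126M.wult_of_one_point hκ ht hx h)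

end Pool.Agent.Results.MP_cc72b1_an.WeakUniformMicro
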